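import Mathlib

/-!
# A flowchart measure which is not finitely invariant

There is a finite universal interpretation `F` and total recursive `f`, `g` that differ at one
argument only, such that `f` is in the class `Φ(3)` of the flowchart measure of `F` and `g` is not.
-/

set_option autoImplicit false

namespace Pool.Agent.Results.MP_091941_lc.NotInvariant

open Nat.Partrec (Code)
open Nat.Partrec.Code

/-- An interpretation: a set of recursive functions and a set of recursive predicates (of arbitrary
arities). -/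
structure Interpretation where
  /-- the functions -/
  funs : Set (Σ n : ℕ, (List.Vector ℕ n → ℕ))
  /-- the predicates -/
  preds : Set (Σ n : ℕ, (List.Vector ℕ n → Bool))
  /-- the functions are recursive -/
  funs_computable : ∀ f ∈ funs, Computable f.2
  /-- the predicates are recursive -/
  preds_computable : ∀ p ∈ preds, Computable p.2

/-- The nodes of a flowchart over `F` (other than the start node), with successors in `V`. The
program variables are numbered by `ℕ`. -/
inductive Node (F : Interpretation) (V : Type) : Type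
  /-- operation node: variable `tgt` gets the value of `f` at the variables `args` -/
  | op (f : Σ n : ℕ, (List.Vector ℕ n → ℕ)) (hf : f ∈ F.funs) (args : List.Vector ℕ f.1)
      (tgt : ℕ) (next : V) : Node F V
  /-- test node with two successors -/
  | test (p : Σ n : ℕ, (List.Vector ℕ n → Bool)) (hp : p ∈ F.preds)
      (args : List.Vector ℕ p.1) (yes no : V) : Node F V
  /-- halt node -/
  | halt : Node F V

/-- A flowchart over `F`: finitely many nodes besides the start node; `entry` is the successor of the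
start node; the result is the final value of the variable `out`. -/
structure Flowchart (F : Interpretation) where
  /-- number of nodes besides the start node -/
  size : ℕ
  /-- the nodes -/
  node : Fin size → Node F (Fin size)
  /-- the successor of the start node -/
  entry : Fin size
  /-- the output variable -/
  out : ℕ

/-- `Run Q v σ L y`: the computation of `Q` from the node `v` with values `σ` of the variables halts
with result `y`, and `L` is its number of node executions (`v` and the halt node included). -/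
inductive Run {F : Interpretation} (Q : Flowchart F) : Fin Q.size → (ℕ → ℕ) → ℕ → ℕ → Prop
  | halt {v : Fin Q.size} {σ : ℕ → ℕ} (h : Q.node v = Node.halt) : Run Q v σ 1 (σ Q.out)
  | op {v : Fin Q.size} {σ : ℕ → ℕ} {f : Σ n : ℕ, (List.Vector ℕ n → ℕ)} {hf : f ∈ F.funs}
      {args : List.Vector ℕ f.1} {tgt : ℕ} {next : Fin Q.size} {L y : ℕ}
      (h : Q.node v = Node.op f hf args tgt next)
      (h' : Run Q next (Function.update σ tgt (f.2 (args.map σ))) L y) : Run Q v σ (L + 1) y
  | yes {v : Fin Q.size} {σ : ℕ → ℕ} {p : Σ n : ℕ, (List.Vector ℕ n → Bool)} {hp : p ∈ F.preds}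
      {args : List.Vector ℕ p.1} {yes no : Fin Q.size} {L y : ℕ}
      (h : Q.node v = Node.test p hp args yes no) (ht : p.2 (args.map σ) = true)
      (h' : Run Q yes σ L y) : Run Q v σ (L + 1) y
  | no {v : Fin Q.size} {σ : ℕ → ℕ} {p : Σ n : ℕ, (List.Vector ℕ n → Bool)} {hp : p ∈ F.preds}
      {args : List.Vector ℕ p.1} {yes no : Fin Q.size} {L y : ℕ}
      (h : Q.node v = Node.test p hp args yes no) (ht : p.2 (args.map σ) = false)
      (h' : Run Q no σ L y) : Run Q v σ (L + 1) y

/-- The initial values of the variables: the input in variable `0`, the others are `0`. -/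
def init (x : ℕ) : ℕ → ℕ := fun i => if i = 0 then x else 0

/-- `Comp Q x L y`: on input `x` the flowchart `Q` halts with result `y` and its computation has
length `L`, the number of node executions including the start node. -/
def Comp {F : Interpretation} (Q : Flowchart F) (x L y : ℕ) : Prop :=
  ∃ L', L = L' + 1 ∧ Run Q Q.entry (init x) L' y

/-- `F` is universal: every unary partial recursive function is computed by a flowchart. -/
def Universal (F : Interpretation) : Prop :=
  ∀ h : ℕ →. ℕ, Nat.Partrec h → ∃ Q : Flowchart F, ∀ x y, y ∈ h x ↔ ∃ L, Comp Q x L y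

/-- The complexity class `Φ(t)` of the flowchart measure of `F`: all total functions computed by a
flowchart whose computations have length at most `t(x)` for all but finitely many `x`. -/
def Phi (F : Interpretation) (t : ℕ → ℕ) : Set (ℕ → ℕ) :=
  {f | ∃ Q : Flowchart F, (∀ x, ∃ L, Comp Q x L (f x)) ∧
    {x | ¬ ∃ L, L ≤ t x ∧ Comp Q x L (f x)}.Finite}

/-! ### The interpretation -/

/-- `T(c, x, k) = 0` if the program `c` does not halt on `x` within `k` steps, otherwise
`1 +` its result. -/
def T (v : List.Vector ℕ 3) : ℕ :=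
  Option.casesOn (evaln (v.get 2) (Denumerable.ofNat Code (v.get 0)) (v.get 1)) 0 (fun y => y + 1)

theorem T_primrec : Primrec T := by
  unfold T
  have h0 : Primrec (fun v : List.Vector ℕ 3 => v.get 0) :=
    Primrec.vector_get.comp Primrec.id (Primrec.const 0)
  have h1 : Primrec (fun v : List.Vector ℕ 3 => v.get 1) :=
    Primrec.vector_get.comp Primrec.id (Primrec.const 1)
  have h2 : Primrec (fun v : List.Vector ℕ 3 => v.get 2) :=
    Primrec.vector_get.comp Primrec.id (Primrec.const 2)
  have he : Primrec (fun v : List.Vector ℕ 3 =>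
      evaln (v.get 2) (Denumerable.ofNat Code (v.get 0)) (v.get 1)) :=
    primrec_evaln.comp (Primrec.pair (Primrec.pair h2 ((Primrec.ofNat Code).comp h0)) h1)
  exact Primrec.option_casesOn he (Primrec.const 0) (Primrec.succ.comp Primrec.snd).to₂

/-- the successor function -/
def S (v : List.Vector ℕ 1) : ℕ := v.get 0 + 1

/-- the predecessor function -/
def P (v : List.Vector ℕ 1) : ℕ := v.get 0 - 1

/-- the zero test -/
def Z (v : List.Vector ℕ 1) : Bool := decide (v.get 0 = 0)

theorem get_primrec (n : ℕ) (i : Fin n) : Primrec (fun v : List.Vector ℕ n => v.get i) :=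
  Primrec.vector_get.comp Primrec.id (Primrec.const i)

theorem S_primrec : Primrec S := Primrec.succ.comp (get_primrec 1 0)

theorem P_primrec : Primrec P := Primrec.pred.comp (get_primrec 1 0)

theorem Z_primrec : Primrec Z := by
  have := (Primrec.eq.comp (get_primrec 1 0) (Primrec.const 0)).decide
  exact this

/-- the vector `(a, b, c)` -/
def v3 (a b c : ℕ) : List.Vector ℕ 3 := a ::ᵥ b ::ᵥ c ::ᵥ List.Vector.nil

/-- the function `f`: larger than everything that one operation `S`, `P`, `T` computes -/
def f (x : ℕ) : ℕ :=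
  x + 2 + (T (v3 x x x) + T (v3 0 x x) + T (v3 x 0 x) + T (v3 0 0 x) +
    T (v3 x x 0) + T (v3 0 x 0) + T (v3 x 0 0) + T (v3 0 0 0))

theorem mk3_primrec {a b c : ℕ → ℕ} (ha : Primrec a) (hb : Primrec b) (hc : Primrec c) :
    Primrec (fun x => v3 (a x) (b x) (c x)) :=
  Primrec.vector_cons.comp ha (Primrec.vector_cons.comp hb
      (Primrec.vector_cons.comp hc (Primrec.const List.Vector.nil)))

theorem f_primrec : Primrec f := by
  have hi : Primrec (fun x : ℕ => x) := Primrec.id
  have h0 : Primrec (fun _ : ℕ => 0) := Primrec.const 0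
  have t1 := T_primrec.comp (mk3_primrec hi hi hi)
  have t2 := T_primrec.comp (mk3_primrec h0 hi hi)
  have t3 := T_primrec.comp (mk3_primrec hi h0 hi)
  have t4 := T_primrec.comp (mk3_primrec h0 h0 hi)
  have t5 := T_primrec.comp (mk3_primrec hi hi h0)
  have t6 := T_primrec.comp (mk3_primrec h0 hi h0)
  have t7 := T_primrec.comp (mk3_primrec hi h0 h0)
  have t8 := T_primrec.comp (mk3_primrec h0 h0 h0)
  have hx : Primrec (fun x : ℕ => x + 2) := Primrec.nat_add.comp hi (Primrec.const 2)
  exact Primrec.nat_add.comp hx (Primrec.nat_add.comp (Primrec.nat_add.comp (Primrec.nat_add.comp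
    (Primrec.nat_add.comp (Primrec.nat_add.comp (Primrec.nat_add.comp (Primrec.nat_add.comp
      t1 t2) t3) t4) t5) t6) t7) t8)

/-- the function `f` as a function of one variable of a flowchart -/
def fv (v : List.Vector ℕ 1) : ℕ := f (v.get 0)

theorem fv_primrec : Primrec fv := f_primrec.comp (get_primrec 1 0)

/-- the function `g`: it differs from `f` at `0` only -/
def g (x : ℕ) : ℕ := if x = 0 then f 0 + 1 else f x

/-- The interpretation `{S, P, T, f; = 0}`. -/
def F0 : Interpretation where
  funs := {⟨1, S⟩, ⟨1, P⟩, ⟨3, T⟩, ⟨1, fv⟩}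
  preds := {⟨1, Z⟩}
  funs_computable := by
    rintro h (rfl | rfl | rfl | rfl)
    · exact S_primrec.to_comp
    · exact P_primrec.to_comp
    · exact T_primrec.to_comp
    · exact fv_primrec.to_comp
  preds_computable := by
    rintro h rfl
    exact Z_primrec.to_comp

theorem S_mem : (⟨1, S⟩ : Σ n : ℕ, (List.Vector ℕ n → ℕ)) ∈ F0.funs := Or.inl rfl
theorem P_mem : (⟨1, P⟩ : Σ n : ℕ, (List.Vector ℕ n → ℕ)) ∈ F0.funs := Or.inr (Or.inl rfl)
theorem T_mem : (⟨3, T⟩ : Σ n : ℕ, (List.Vector ℕ n → ℕ)) ∈ F0.funs :=
  Or.inr (Or.inr (Or.inl rfl))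
theorem f_mem : (⟨1, fv⟩ : Σ n : ℕ, (List.Vector ℕ n → ℕ)) ∈ F0.funs :=
  Or.inr (Or.inr (Or.inr rfl))
theorem Z_mem : (⟨1, Z⟩ : Σ n : ℕ, (List.Vector ℕ n → Bool)) ∈ F0.preds := rfl

/-! ### Universality -/

/-- the variable `i` as an argument -/
def arg1 (i : ℕ) : List.Vector ℕ 1 := i ::ᵥ List.Vector.nil

/-- The flowchart for the program with number `c`: `c` times `v₁ := v₁ + 1`; then a loop
`v₂ := v₂ + 1; v₃ := T(v₁, v₀, v₂); v₃ = 0?`; finally `v₀ := v₃ - 1`. -/
def prog (c : ℕ) : Flowchart F0 where
  size := c + 5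
  node := fun v =>
    if h : (v : ℕ) < c then
      Node.op ⟨1, S⟩ S_mem (arg1 1) 1 ⟨v + 1, by omega⟩
    else if (v : ℕ) = c then
      Node.op ⟨1, S⟩ S_mem (arg1 2) 2 ⟨c + 1, by omega⟩
    else if (v : ℕ) = c + 1 then
      Node.op ⟨3, T⟩ T_mem (v3 1 0 2) 3 ⟨c + 2, by omega⟩
    else if (v : ℕ) = c + 2 then
      Node.test ⟨1, Z⟩ Z_mem (arg1 3) ⟨c, by omega⟩ ⟨c + 3, by omega⟩
    else if (v : ℕ) = c + 3 then
      Node.op ⟨1, P⟩ P_mem (arg1 3) 0 ⟨c + 4, by omega⟩
    else Node.halt
  entry := ⟨0, by omega⟩
  out := 0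

theorem prog_node_lt (c i : ℕ) (h : i < c) (h' : i < c + 5) : (prog c).node ⟨i, h'⟩ =
    Node.op ⟨1, S⟩ S_mem (arg1 1) 1 ⟨i + 1, by change i + 1 < c + 5; omega⟩ := by
  simp only [prog]
  rw [dif_pos h]

theorem prog_node_0 (c : ℕ) (h' : c < c + 5) : (prog c).node ⟨c, h'⟩ =
    Node.op ⟨1, S⟩ S_mem (arg1 2) 2 ⟨c + 1, by change c + 1 < c + 5; omega⟩ := by
  simp only [prog]
  rw [dif_neg (by omega), if_pos trivial]

theorem prog_node_1 (c : ℕ) (h' : c + 1 < c + 5) : (prog c).node ⟨c + 1, h'⟩ =
    Node.op ⟨3, T⟩ T_mem (v3 1 0 2) 3 ⟨c + 2, by change c + 2 < c + 5; omega⟩ := by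
  simp only [prog]
  rw [dif_neg (by omega), if_neg (by omega), if_pos trivial]

theorem prog_node_2 (c : ℕ) (h' : c + 2 < c + 5) : (prog c).node ⟨c + 2, h'⟩ =
    Node.test ⟨1, Z⟩ Z_mem (arg1 3) ⟨c, by change c < c + 5; omega⟩
      ⟨c + 3, by change c + 3 < c + 5; omega⟩ := by
  simp only [prog]
  rw [dif_neg (by omega), if_neg (by omega), if_neg (by omega), if_pos trivial]

theorem prog_node_3 (c : ℕ) (h' : c + 3 < c + 5) : (prog c).node ⟨c + 3, h'⟩ =
    Node.op ⟨1, P⟩ P_mem (arg1 3) 0 ⟨c + 4, by change c + 4 < c + 5; omega⟩ := by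
  simp only [prog]
  rw [dif_neg (by omega), if_neg (by omega), if_neg (by omega), if_neg (by omega), if_pos trivial]

theorem prog_node_4 (c : ℕ) (h' : c + 4 < c + 5) : (prog c).node ⟨c + 4, h'⟩ = Node.halt := by
  simp only [prog]
  rw [dif_neg (by omega), if_neg (by omega), if_neg (by omega), if_neg (by omega),
    if_neg (by omega)]

/-! ### Runs -/

section runs

variable {F : Interpretation} {Q : Flowchart F}

theorem run_op {v : Fin Q.size} {σ : ℕ → ℕ} {f : Σ n : ℕ, (List.Vector ℕ n → ℕ)} {hf : f ∈ F.funs}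
    {args : List.Vector ℕ f.1} {tgt : ℕ} {next : Fin Q.size} {L y : ℕ}
    (h : Q.node v = Node.op f hf args tgt next) :
    Run Q v σ L y ↔ ∃ L', L = L' + 1 ∧
      Run Q next (Function.update σ tgt (f.2 (args.map σ))) L' y := by
  constructor
  · intro hr
    cases hr with
    | halt h2 => rw [h] at h2; cases h2
    | op h2 h' => rw [h] at h2; cases h2; exact ⟨_, rfl, h'⟩
    | yes h2 _ _ => rw [h] at h2; cases h2
    | no h2 _ _ => rw [h] at h2; cases h2
  · rintro ⟨L', rfl, h'⟩
    exact Run.op h h'

theorem run_test {v : Fin Q.size} {σ : ℕ → ℕ} {p : Σ n : ℕ, (List.Vector ℕ n → Bool)}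
    {hp : p ∈ F.preds} {args : List.Vector ℕ p.1} {yes no : Fin Q.size} {L y : ℕ}
    (h : Q.node v = Node.test p hp args yes no) :
    Run Q v σ L y ↔ ∃ L', L = L' + 1 ∧
      Run Q (if p.2 (args.map σ) = true then yes else no) σ L' y := by
  constructor
  · intro hr
    cases hr with
    | halt h2 => rw [h] at h2; cases h2
    | op h2 h' => rw [h] at h2; cases h2
    | yes h2 ht h' => rw [h] at h2; cases h2; exact ⟨_, rfl, by rw [if_pos ht]; exact h'⟩
    | no h2 ht h' => rw [h] at h2; cases h2; exact ⟨_, rfl, by rw [if_neg (by simp [ht])]; exact h'⟩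
  · rintro ⟨L', rfl, h'⟩
    by_cases ht : p.2 (args.map σ) = true
    · rw [if_pos ht] at h'; exact Run.yes h ht h'
    · rw [if_neg ht] at h'; exact Run.no h (by simpa using ht) h'

theorem run_halt {v : Fin Q.size} {σ : ℕ → ℕ} {L y : ℕ} (h : Q.node v = Node.halt) :
    Run Q v σ L y ↔ L = 1 ∧ y = σ Q.out := by
  constructor
  · intro hr
    cases hr with
    | halt h2 => exact ⟨rfl, rfl⟩
    | op h2 h' => rw [h] at h2; cases h2
    | yes h2 ht h' => rw [h] at h2; cases h2
    | no h2 ht h' => rw [h] at h2; cases h2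
  · rintro ⟨rfl, rfl⟩
    exact Run.halt h

theorem run_pos {v : Fin Q.size} {σ : ℕ → ℕ} {L y : ℕ} (h : Run Q v σ L y) : 1 ≤ L := by
  cases h <;> omega

/-- a computation of length one: the node is the halt node -/
theorem run_one {v : Fin Q.size} {σ : ℕ → ℕ} {L y : ℕ} (h : Run Q v σ L y) (hL : L ≤ 1) :
    y = σ Q.out := by
  cases h with
  | halt h2 => rfl
  | op h2 h' => have := run_pos h'; omega
  | yes h2 ht h' => have := run_pos h'; omega
  | no h2 ht h' => have := run_pos h'; omega

theorem run_one_halt {v : Fin Q.size} {σ : ℕ → ℕ} {L y : ℕ} (h : Run Q v σ L y) (hL : L ≤ 1) :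
    Q.node v = Node.halt := by
  cases h with
  | halt h2 => exact h2
  | op h2 h' => have := run_pos h'; omega
  | yes h2 ht h' => have := run_pos h'; omega
  | no h2 ht h' => have := run_pos h'; omega

end runs

/-! ### The loop -/

/-- the values of the variables -/
def st (a b k t : ℕ) : ℕ → ℕ :=
  fun i => if i = 0 then a else if i = 1 then b else if i = 2 then k else if i = 3 then t else 0

theorem init_eq (x : ℕ) : init x = st x 0 0 0 := by
  funext i
  simp only [init, st]
  split_ifs <;> rfl

theorem upd0 (a b k t s : ℕ) : Function.update (st a b k t) 0 s = st s b k t := by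
  funext i
  by_cases h : i = 0
  · subst h; simp [st]
  · rw [Function.update_of_ne h]; simp [st, h]

theorem upd1 (a b k t s : ℕ) : Function.update (st a b k t) 1 s = st a s k t := by
  funext i
  by_cases h : i = 1
  · subst h; simp [st]
  · rw [Function.update_of_ne h]; simp [st, h]

theorem upd2 (a b k t s : ℕ) : Function.update (st a b k t) 2 s = st a b s t := by
  funext i
  by_cases h : i = 2
  · subst h; simp [st]
  · rw [Function.update_of_ne h]; simp [st, h]

theorem upd3 (a b k t s : ℕ) : Function.update (st a b k t) 3 s = st a b k s := by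
  funext i
  by_cases h : i = 3
  · subst h; simp [st]
  · rw [Function.update_of_ne h]; simp [st, h]

theorem T_eq (a b k t : ℕ) : T ((v3 1 0 2).map (st a b k t)) =
    Option.casesOn (evaln k (Denumerable.ofNat Code b) a) 0 (fun y => y + 1) := rfl

/-- one passage of the loop, from the node `c` -/
theorem loop (c x k t L y : ℕ) :
    Run (prog c) ⟨c, by change c < c + 5; omega⟩ (st x c k t) L y ↔
      (evaln (k + 1) (Denumerable.ofNat Code c) x = some y ∧ L = 5) ∨
      (evaln (k + 1) (Denumerable.ofNat Code c) x = none ∧ ∃ L', L = L' + 3 ∧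
        Run (prog c) ⟨c, by change c < c + 5; omega⟩ (st x c (k + 1) 0) L' y) := by
  rw [run_op (prog_node_0 c (by omega))]
  have e1 : Function.update (st x c k t) 2 (S ((arg1 2).map (st x c k t))) =
      st x c (k + 1) t := by
    rw [upd2]; rfl
  simp only [e1]
  have key : ∀ L1, Run (prog c) ⟨c + 1, by change c + 1 < c + 5; omega⟩ (st x c (k + 1) t) L1 y ↔
      (evaln (k + 1) (Denumerable.ofNat Code c) x = some y ∧ L1 = 4) ∨
      (evaln (k + 1) (Denumerable.ofNat Code c) x = none ∧ ∃ L', L1 = L' + 2 ∧
        Run (prog c) ⟨c, by change c < c + 5; omega⟩ (st x c (k + 1) 0) L' y) := by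
    intro L1
    rw [run_op (prog_node_1 c (by omega))]
    simp only [T_eq, upd3]
    cases he : evaln (k + 1) (Denumerable.ofNat Code c) x with
    | none =>
      simp only [run_test (prog_node_2 c (by omega))]
      have e2 : Z ((arg1 3).map (st x c (k + 1) 0)) = true := rfl
      simp only [e2, if_true]
      constructor
      · rintro ⟨L', rfl, L'', rfl, h⟩
        exact Or.inr ⟨trivial, L'', rfl, h⟩
      · rintro (⟨h, _⟩ | ⟨_, L', rfl, h⟩)
        · cases h
        · exact ⟨_, rfl, _, rfl, h⟩
    | some z =>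
      simp only [run_test (prog_node_2 c (by omega))]
      have e2 : Z ((arg1 3).map (st x c (k + 1) (z + 1))) = false := rfl
      simp only [e2]
      simp only [Bool.false_eq_true, if_false]
      simp only [run_op (prog_node_3 c (by omega))]
      have e3 : Function.update (st x c (k + 1) (z + 1)) 0
          (P ((arg1 3).map (st x c (k + 1) (z + 1)))) = st z c (k + 1) (z + 1) := by
        rw [upd0]; rfl
      simp only [e3, run_halt (prog_node_4 c (by omega))]
      have e4 : st z c (k + 1) (z + 1) (prog c).out = z := rfl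
      rw [e4]
      constructor
      · rintro ⟨L', rfl, L'', rfl, L3, rfl, rfl, rfl⟩
        exact Or.inl ⟨rfl, rfl⟩
      · rintro (⟨h, rfl⟩ | ⟨h, _⟩)
        · cases h
          exact ⟨_, rfl, _, rfl, _, rfl, rfl, rfl⟩
        · cases h
  simp only [key]
  constructor
  · rintro ⟨L', rfl, (⟨h, rfl⟩ | ⟨h, L'', rfl, h'⟩)⟩
    · exact Or.inl ⟨h, rfl⟩
    · exact Or.inr ⟨h, L'', rfl, h'⟩
  · rintro (⟨h, rfl⟩ | ⟨h, L'', rfl, h'⟩)
    · exact ⟨4, rfl, Or.inl ⟨h, rfl⟩⟩
    · exact ⟨L'' + 2, rfl, Or.inr ⟨h, L'', rfl, h'⟩⟩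

theorem loop_halts (c x y : ℕ) : ∀ j k t, evaln (k + 1 + j) (Denumerable.ofNat Code c) x = some y →
    ∃ L, Run (prog c) ⟨c, by change c < c + 5; omega⟩ (st x c k t) L y := by
  intro j
  induction j with
  | zero =>
    intro k t h
    exact ⟨5, (loop c x k t 5 y).mpr (Or.inl ⟨h, rfl⟩)⟩
  | succ j ih =>
    intro k t h
    cases he : evaln (k + 1) (Denumerable.ofNat Code c) x with
    | none =>
      obtain ⟨L, hL⟩ := ih (k + 1) 0 (by rw [show k + 1 + 1 + j = k + 1 + (j + 1) by ring]; exact h)
      exact ⟨L + 3, (loop c x k t (L + 3) y).mpr (Or.inr ⟨he, L, rfl, hL⟩)⟩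
    | some z =>
      have h1 : z ∈ evaln (k + 1 + (j + 1)) (Denumerable.ofNat Code c) x :=
        evaln_mono (by omega) he
      rw [Option.mem_def, h] at h1
      cases h1
      exact ⟨5, (loop c x k t 5 y).mpr (Or.inl ⟨he, rfl⟩)⟩

theorem loop_sound (c x y : ℕ) : ∀ L k t,
    Run (prog c) ⟨c, by change c < c + 5; omega⟩ (st x c k t) L y →
    ∃ k', evaln k' (Denumerable.ofNat Code c) x = some y := by
  intro L
  induction L using Nat.strong_induction_on with
  | _ L ih =>
    intro k t h
    rcases (loop c x k t L y).mp h with ⟨h1, _⟩ | ⟨_, L', rfl, h2⟩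
    · exact ⟨_, h1⟩
    · exact ih L' (by omega) _ _ h2

theorem prefix_run (c x y : ℕ) : ∀ i (hi : i ≤ c),
    (∃ L, Run (prog c) ⟨c - i, by change c - i < c + 5; omega⟩ (st x (c - i) 0 0) L y) ↔
    ∃ L, Run (prog c) ⟨c, by change c < c + 5; omega⟩ (st x c 0 0) L y := by
  intro i
  induction i with
  | zero => intro hi; rfl
  | succ i ih =>
    intro hi
    rw [← ih (by omega)]
    have hn := prog_node_lt c (c - (i + 1)) (by omega) (by omega)
    simp only [run_op hn]
    have e1 : Function.update (st x (c - (i + 1)) 0 0) 1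
        (S ((arg1 1).map (st x (c - (i + 1)) 0 0))) = st x (c - i) 0 0 := by
      rw [upd1]
      have : S ((arg1 1).map (st x (c - (i + 1)) 0 0)) = c - (i + 1) + 1 := rfl
      rw [this]
      congr 1
      omega
    simp only [e1]
    have e2 : (⟨c - (i + 1) + 1, by change c - (i + 1) + 1 < c + 5; omega⟩ : Fin (prog c).size) =
        ⟨c - i, by change c - i < c + 5; omega⟩ := by
      apply Fin.ext
      simp only
      omega
    simp only [e2]
    constructor
    · rintro ⟨L, L', rfl, h⟩; exact ⟨L', h⟩
    · rintro ⟨L, h⟩; exact ⟨L + 1, L, rfl, h⟩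

theorem universal_F0 : Universal F0 := by
  intro h hh
  obtain ⟨code, hcode⟩ := exists_code.mp hh
  set c := Encodable.encode code with hc
  have hofc : Denumerable.ofNat Code c = code := Denumerable.ofNat_encode code
  refine ⟨prog c, fun x y => ?_⟩
  have h1 : (∃ L, Comp (prog c) x L y) ↔
      ∃ L, Run (prog c) ⟨c, by change c < c + 5; omega⟩ (st x c 0 0) L y := by
    rw [← prefix_run c x y c le_rfl]
    have e0 : (⟨c - c, by change c - c < c + 5; omega⟩ : Fin (prog c).size) = (prog c).entry := by
      apply Fin.ext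
      simp [prog]
    rw [e0, Nat.sub_self, ← init_eq]
    constructor
    · rintro ⟨L, L', rfl, h⟩; exact ⟨L', h⟩
    · rintro ⟨L, h⟩; exact ⟨L + 1, L, rfl, h⟩
  rw [h1, ← hcode]
  constructor
  · intro hy
    obtain ⟨k, hk⟩ := evaln_complete.mp hy
    have hk' : evaln (0 + 1 + k) (Denumerable.ofNat Code c) x = some y := by
      rw [hofc]
      exact evaln_mono (by omega) hk
    exact loop_halts c x y k 0 0 hk'
  · rintro ⟨L, hL⟩
    obtain ⟨k, hk⟩ := loop_sound c x y L 0 0 hL
    rw [hofc] at hk
    exact evaln_complete.mpr ⟨k, hk⟩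

/-! ### The separation -/

/-- the flowchart `start → v₀ := f(v₀) → halt` -/
def Qf : Flowchart F0 where
  size := 2
  node := fun v => if v = 0 then Node.op ⟨1, fv⟩ f_mem (arg1 0) 0 1 else Node.halt
  entry := 0
  out := 0

theorem comp_Qf (x : ℕ) : Comp Qf x 3 (f x) := by
  refine ⟨2, rfl, ?_⟩
  refine Run.op (f := ⟨1, fv⟩) (hf := f_mem) (args := arg1 0) (tgt := 0) (next := (1 : Fin 2)) rfl ?_
  have h : Run Qf (1 : Fin 2)
      (Function.update (init x) 0 (fv ((arg1 0).map (init x)))) 1
      ((Function.update (init x) 0 (fv ((arg1 0).map (init x)))) Qf.out) := Run.halt rfl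
  have e : (Function.update (init x) 0 (fv ((arg1 0).map (init x)))) Qf.out = f x := rfl
  rw [e] at h
  exact h

theorem f_mem_Phi : f ∈ Phi F0 (fun _ => 3) := by
  refine ⟨Qf, fun x => ⟨3, comp_Qf x⟩, ?_⟩
  convert Set.finite_empty (α := ℕ)
  rw [Set.eq_empty_iff_forall_notMem]
  intro x hx
  exact hx ⟨3, le_rfl, comp_Qf x⟩

theorem le_f (x : ℕ) : x + 2 ≤ f x := by unfold f; omega

theorem g_pos (x : ℕ) (hx : x ≠ 0) : g x = f x := by simp [g, hx]

theorem g_zero : g 0 = f 0 + 1 := by simp [g]

theorem init_cases (x i : ℕ) : init x i = x ∨ init x i = 0 := by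
  unfold init
  split_ifs
  · exact Or.inl rfl
  · exact Or.inr rfl

theorem T_lt (x i j k : ℕ) : T (v3 (init x i) (init x j) (init x k)) < f x := by
  unfold f
  rcases init_cases x i with h1 | h1 <;> rcases init_cases x j with h2 | h2 <;>
    rcases init_cases x k with h3 | h3 <;> rw [h1, h2, h3] <;> omega

theorem vec1 (v : List.Vector ℕ 1) : ∃ i, v = arg1 i := by
  obtain ⟨l, hl⟩ := v
  match l, hl with
  | [i], _ => exact ⟨i, rfl⟩

theorem vec3 (v : List.Vector ℕ 3) : ∃ i j k, v = v3 i j k := by
  obtain ⟨l, hl⟩ := v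
  match l, hl with
  | [i, j, k], _ => exact ⟨i, j, k, rfl⟩

theorem g_not_mem_Phi : g ∉ Phi F0 (fun _ => 3) := by
  rintro ⟨Q, hQ, hfin⟩
  -- for all large x the computation has at most two nodes after the start node
  obtain ⟨M, hM⟩ := hfin.bddAbove
  have hlarge : ∀ x, M < x → ∃ L, L ≤ 2 ∧ Run Q Q.entry (init x) L (g x) := by
    intro x hx
    have : ¬ ¬ ∃ L, L ≤ 3 ∧ Comp Q x L (g x) := by
      intro hn
      have := hM hn
      omega
    push Not at this
    obtain ⟨L, hL, L', rfl, hr⟩ := this
    exact ⟨L', by omega, hr⟩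
  -- large values of g
  have hg : ∀ x, M < x → x + 2 ≤ g x := by
    intro x hx
    rw [g_pos x (by omega)]
    exact le_f x
  cases hn : Q.node Q.entry with
  | halt =>
    obtain ⟨L, _, hr⟩ := hlarge (M + 1) (by omega)
    rw [run_halt hn] at hr
    have h1 := hg (M + 1) (by omega)
    rcases init_cases (M + 1) Q.out with h | h <;> omega
  | test p hp args yes no =>
    obtain ⟨L, hL, hr⟩ := hlarge (M + 1) (by omega)
    rw [run_test hn] at hr
    obtain ⟨L', rfl, hr⟩ := hr
    have h2 := run_one hr (by omega)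
    have h1 := hg (M + 1) (by omega)
    rcases init_cases (M + 1) Q.out with h | h <;> omega
  | op h hf args tgt next =>
    -- the next node is the halt node
    have hval : ∀ x, M < x →
        g x = Function.update (init x) tgt (h.2 (args.map (init x))) Q.out := by
      intro x hx
      obtain ⟨L, hL, hr⟩ := hlarge x hx
      rw [run_op hn] at hr
      obtain ⟨L', rfl, hr⟩ := hr
      exact run_one hr (by omega)
    have hnext : Q.node next = Node.halt := by
      obtain ⟨L, hL, hr⟩ := hlarge (M + 1) (by omega)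
      rw [run_op hn] at hr
      obtain ⟨L', rfl, hr⟩ := hr
      exact run_one_halt hr (by omega)
    have hzero : g 0 = Function.update (init 0) tgt (h.2 (args.map (init 0))) Q.out := by
      obtain ⟨L, L', rfl, hr⟩ := hQ 0
      rw [run_op hn] at hr
      obtain ⟨L'', rfl, hr⟩ := hr
      rw [run_halt hnext] at hr
      exact hr.2
    by_cases hout : Q.out = tgt
    · simp only [hout, Function.update_self] at hval hzero
      rcases hf with rfl | rfl | rfl | rfl
      · -- S
        obtain ⟨i, rfl⟩ := vec1 args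
        have h1 := hval (M + 1) (by omega)
        have h2 := hg (M + 1) (by omega)
        have h3 : S ((arg1 i).map (init (M + 1))) = init (M + 1) i + 1 := rfl
        simp only [h3] at h1
        rcases init_cases (M + 1) i with h | h <;> omega
      · -- P
        obtain ⟨i, rfl⟩ := vec1 args
        have h1 := hval (M + 1) (by omega)
        have h2 := hg (M + 1) (by omega)
        have h3 : P ((arg1 i).map (init (M + 1))) = init (M + 1) i - 1 := rfl
        simp only [h3] at h1
        rcases init_cases (M + 1) i with h | h <;> omega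
      · -- T
        obtain ⟨i, j, k, rfl⟩ := vec3 args
        have h1 := hval (M + 1) (by omega)
        rw [g_pos _ (by omega)] at h1
        have h3 : T ((v3 i j k).map (init (M + 1))) =
          T (v3 (init (M + 1) i) (init (M + 1) j) (init (M + 1) k)) := rfl
        simp only [h3] at h1
        have := T_lt (M + 1) i j k
        omega
      · -- f
        obtain ⟨i, rfl⟩ := vec1 args
        have h3 : ∀ x, fv ((arg1 i).map (init x)) = f (init x i) := fun x => rfl
        simp only [h3] at hval hzero
        have h0 : init 0 i = 0 := by rcases init_cases 0 i with h | h <;> exact h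
        rw [h0, g_zero] at hzero
        omega
    · simp only [Function.update_of_ne hout] at hval
      have h1 := hval (M + 1) (by omega)
      have h2 := hg (M + 1) (by omega)
      rcases init_cases (M + 1) Q.out with h | h <;> omega

theorem g_primrec : Primrec g :=
  Primrec.ite (Primrec.eq.comp Primrec.id (Primrec.const 0)) (Primrec.const _) f_primrec

/-- **Main theorem.** There is an interpretation `F` with finitely many (in fact four recursive
functions and one recursive predicate) symbols that is universal, and there are total recursive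
functions `f`, `g`, `t` (with `t = 3` constant) such that `f(x) = g(x)` for all `x ≠ 0`, `f` is in
the class `Φ(t)` of the flowchart measure of `F`, and `g` is not. So the flowchart measure of `F` is
not finitely invariant. -/
theorem result : ∃ F : Interpretation, F.funs.Finite ∧ F.preds.Finite ∧ Universal F ∧
    ∃ f g t : ℕ → ℕ, Computable f ∧ Computable g ∧ Computable t ∧ {x | f x ≠ g x}.Finite ∧
      f ∈ Phi F t ∧ g ∉ Phi F t := by
  refine ⟨F0, ?_, ?_, universal_F0, f, g, fun _ => 3, f_primrec.to_comp, g_primrec.to_comp,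
    Computable.const 3, ?_, f_mem_Phi, g_not_mem_Phi⟩
  · change ({⟨1, S⟩, ⟨1, P⟩, ⟨3, T⟩, ⟨1, fv⟩} :
      Set (Σ n : ℕ, (List.Vector ℕ n → ℕ))).Finite
    exact (((Set.finite_singleton _).insert _).insert _).insert _
  · exact Set.finite_singleton _
  · refine (Set.finite_singleton 0).subset ?_
    intro x hx
    by_contra h
    exact hx (g_pos x h).symm

end Pool.Agent.Results.MP_091941_lc.NotInvariant
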